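import Pool.Agent.H174.GM.Stmts2
import Pool.Agent.H162.GM174.Sym

/-! GM task REG (helper665). -/

set_option autoImplicit false

namespace Pool.Agent.H665.GM174

open Finset Pool.Agent.H174.GM

/-- the subring of elements all of whose exponents are nonnegative -/
noncomputable def nnring (h2 : S_EH1) (k : ℕ) : Subring (E k) where
  carrier := {f | ∀ l, Ge l 0 f}
  mul_mem' {f g} hf hg l := by
    have := (h2 k l 0 0 f g).1 (hf l) (hg l)
    rwa [add_zero] at this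
  one_mem' l := by
    intro γ hγ
    have h0 : γ = 0 := by
      by_contra hne
      exact hγ (by rw [HahnSeries.coeff_one, if_neg hne])
    rw [h0]
    exact le_refl _
  add_mem' {f g} hf hg l := (h2 k l 0 0 f g).2.2.1 (hf l) (hg l)
  zero_mem' l := by
    intro γ hγ
    exact absurd (HahnSeries.coeff_zero) hγ
  neg_mem' {f} hf l := (h2 k l 0 0 f f).2.2.2.2.1 (hf l)

theorem mem_nnring (h2 : S_EH1) (k : ℕ) (f : E k) : f ∈ nnring h2 k ↔ ∀ l, Ge l 0 f := Iff.rfl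

theorem xx_mem (h2 : S_EH1) (h4 : S_XF) (k : ℕ) (j : Fin k) : (xx j : E k) ∈ nnring h2 k := by
  intro l
  by_cases hl : j = l
  · subst hl
    exact (h2 k j 1 0 (xx j) (xx j)).2.2.2.2.2.2.1 (h4 k j).2.1 (by norm_num)
  · exact ((h4 k l).2.2.2.1 j hl).1

theorem uu_mem {k : ℕ} {S : Subring (E k)} {x : E k} (hx : x ∈ S) : uu x ∈ S :=
  S.mul_mem hx (S.sub_mem S.one_mem hx)

theorem mm_mem {k : ℕ} {S : Subring (E k)} {x y : E k} (hx : x ∈ S) (hy : y ∈ S) : mm x y ∈ S :=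
  S.add_mem hy (S.mul_mem hx (S.pow_mem (S.sub_mem S.one_mem hy) 2))

theorem cc_mem {k : ℕ} {S : Subring (E k)} {Y : Fin k → E k} (hY : ∀ i, Y i ∈ S) : cc Y ∈ S :=
  S.prod_mem fun p _ => mm_mem (uu_mem (hY p.1)) (hY p.2)

theorem ff_mem {k : ℕ} {S : Subring (E k)} {Y : Fin k → E k} (a : Fin k → ℕ)
    (hY : ∀ i, Y i ∈ S) : ff a Y ∈ S :=
  S.mul_mem (S.prod_mem fun i _ => S.pow_mem (hY i) _) (cc_mem hY)

theorem flp_mem {k : ℕ} {S : Subring (E k)} {Y : Fin k → E k} (ε : Fin k → Bool)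
    (hY : ∀ i, Y i ∈ S) (i : Fin k) : flp ε Y i ∈ S := by
  unfold flp
  split_ifs
  · exact S.sub_mem S.one_mem (hY i)
  · exact hY i

theorem aa_mem {k : ℕ} {S : Subring (E k)} {Y : Fin k → E k} (a : Fin k → ℕ)
    (hY : ∀ i, Y i ∈ S) : aa a Y ∈ S :=
  S.sum_mem fun σ _ => S.zsmul_mem (ff_mem a fun i => hY (σ i)) _

theorem psi_mem {k : ℕ} {S : Subring (E k)} {Y : Fin k → E k}
    (hY : ∀ i, Y i ∈ S) : psi Y ∈ S :=
  S.sum_mem fun ε _ => S.zsmul_mem (aa_mem _ fun i => flp_mem ε hY i) _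

theorem d2_eq {k : ℕ} (a b : E k) : d2 (uu a) (uu b) = mm (uu a) b * mm (uu a) (1 - b) := by
  unfold d2 mm uu
  ring

theorem d2_comm {k : ℕ} (u v : E k) : d2 u v = d2 v u := by
  unfold d2
  ring

theorem lead_add {k : ℕ} {f g : E k} {γ : Ex k} (hf : Lead f 0) (hg : Lead g γ) (hγ : 0 < γ) :
    Lead (f + g) 0 := by
  refine ⟨?_, fun δ hδ => ?_⟩
  · rw [HahnSeries.coeff_add, hg.2 0 hγ, add_zero]
    exact hf.1
  · rw [HahnSeries.coeff_add, hg.2 δ (hδ.trans hγ), hf.2 δ hδ, add_zero]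

theorem pos_single {k : ℕ} (j : Fin k) : (0 : Ex k) < toLex (Pi.single j 1) := by
  refine ⟨j, fun i hi => ?_, ?_⟩
  · show (0 : ℤ) = (Pi.single j 1 : Fin k → ℤ) i
    rw [Pi.single_eq_of_ne (ne_of_lt hi)]
  · show (0 : ℤ) < (Pi.single j 1 : Fin k → ℤ) j
    rw [Pi.single_eq_same]
    exact one_pos

theorem lead_mm (h2 : S_EH1) (h4 : S_XF) {k : ℕ} (p q : Fin k) :
    Lead (mm (uu (xx p)) (1 - xx q) : E k) 0 := by
  have e : (mm (uu (xx p)) (1 - xx q) : E k)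
      = (1 - xx q) + (xx p * (1 - xx p)) * (xx q * xx q) := by
    unfold mm uu
    ring
  rw [e]
  have l1 : Lead (1 - xx q : E k) 0 := ((h4 k q).2.2.2.2.1 q).1
  have l2 : Lead (1 - xx p : E k) 0 := ((h4 k p).2.2.2.2.1 p).1
  have lp : Lead (xx p : E k) (toLex (Pi.single p 1)) := (h4 k p).1
  have lq : Lead (xx q : E k) (toLex (Pi.single q 1)) := (h4 k q).1
  have M : ∀ (f g : E k) (γ δ : Ex k), Lead f γ → Lead g δ → Lead (f * g) (γ + δ) :=
    fun f g => (h2 k p 0 0 f g).2.2.2.2.2.2.2.2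
  refine lead_add l1 (M _ _ _ _ (M _ _ _ _ lp l2) (M _ _ _ _ lq lq)) ?_
  have hp := pos_single p
  have hq := pos_single q
  exact add_pos (add_pos_of_pos_of_nonneg hp (le_refl _)) (add_pos hq hq)

theorem inv_mem (h2 : S_EH1) (h3 : S_EH2) {k : ℕ} {f : E k} (hf : f ∈ nnring h2 k)
    (hl : Lead f 0) : f⁻¹ ∈ nnring h2 k := by
  intro l
  have := (h3 k f 0 hl).2.1 l (hf l)
  have e : -(ofLex (0 : Ex k) l) = 0 := by
    show -(0 : ℤ) = 0
    norm_num
  rwa [e] at this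

theorem reg (h1 : S_REGN) (h2 : S_EH1) (h3 : S_EH2) (h4 : S_XF) : Pool.Agent.H174.GM.S_REG := by
  intro k N a σ i h hN hh
  have hx : ∀ j : Fin k, (xx j : E k) ∈ nnring h2 k := xx_mem h2 h4 k
  by_cases hc : cc ((xx : Fin k → E k) ∘ σ) = 0
  · have : ff a ((xx : Fin k → E k) ∘ σ) = 0 := by
      unfold ff
      rw [hc, mul_zero]
    rw [this, mul_zero, zero_mul, zero_div]
    exact HahnSeries.coeff_zero
  -- the denominator
  have hdd : dd (xx (k := k)) = cc ((xx : Fin k → E k) ∘ σ) *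
      ∏ p ∈ pairs k, mm (uu (xx (σ p.1))) (1 - xx (σ p.2) : E k) := by
    have e1 : dd (xx (k := k)) = ∏ p ∈ pairs k, d2 (uu (xx (σ p.1) : E k)) (uu (xx (σ p.2))) :=
      (Pool.Agent.H162.GM174.prod_pairs_comp
        (fun i j => d2 (uu (xx i : E k)) (uu (xx j))) (fun i j => d2_comm _ _) σ).symm
    rw [e1]
    unfold cc
    rw [← Finset.prod_mul_distrib]
    exact Finset.prod_congr rfl fun p _ => d2_eq _ _
  have hf : NN N (psi (xx (k := k)) * ∏ j, (xx (σ j) : E k) ^ a j) := by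
    have hf0 : (psi (xx (k := k)) * ∏ j, (xx (σ j) : E k) ^ a j) ∈ nnring h2 k :=
      (nnring h2 k).mul_mem (psi_mem hx) ((nnring h2 k).prod_mem fun j _ =>
        (nnring h2 k).pow_mem (hx _) _)
    have hf1 : Ge (σ i) (N : ℤ) (psi (xx (k := k)) * ∏ j, (xx (σ j) : E k) ^ a j) := by
      have hpow : ∀ n : ℕ, Ge (σ i) (n : ℤ) ((xx (σ i) : E k) ^ n) := by
        intro n
        induction n with
        | zero =>
          rw [pow_zero]
          exact (nnring h2 k).one_mem (σ i)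
        | succ n ih =>
          rw [pow_succ]
          have := (h2 k (σ i) n 1 ((xx (σ i) : E k) ^ n) (xx (σ i))).1 ih (h4 k (σ i)).2.1
          exact_mod_cast this
      have hpa : Ge (σ i) (N : ℤ) ((xx (σ i) : E k) ^ a i) :=
        (h2 k (σ i) (a i) N _ ((xx (σ i) : E k) ^ a i)).2.2.2.2.2.2.1 (hpow (a i))
          (by exact_mod_cast hN)
      rw [← Finset.mul_prod_erase univ (fun j => (xx (σ j) : E k) ^ a j) (mem_univ i),
        mul_left_comm]
      have hrest : (psi (xx (k := k)) * ∏ j ∈ univ.erase i, (xx (σ j) : E k) ^ a j) ∈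
          nnring h2 k :=
        (nnring h2 k).mul_mem (psi_mem hx) ((nnring h2 k).prod_mem fun j _ =>
          (nnring h2 k).pow_mem (hx _) _)
      have := (h2 k (σ i) N 0 _ _).1 hpa (hrest (σ i))
      rwa [add_zero] at this
    intro γ hγ
    exact ⟨fun l => hf0 l γ hγ, σ i, hf1 γ hγ⟩
  have hg : ∀ l, Ge l 0 (h * (∏ p ∈ pairs k, mm (uu (xx (σ p.1))) (1 - xx (σ p.2) : E k))⁻¹) := by
    have : (h * (∏ p ∈ pairs k, mm (uu (xx (σ p.1))) (1 - xx (σ p.2) : E k))⁻¹) ∈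
        nnring h2 k := by
      refine (nnring h2 k).mul_mem hh ?_
      rw [← Finset.prod_inv_distrib]
      exact (nnring h2 k).prod_mem fun p _ => inv_mem h2 h3
        (mm_mem (uu_mem (hx _)) ((nnring h2 k).sub_mem (nnring h2 k).one_mem (hx _)))
        (lead_mm h2 h4 _ _)
    exact this
  have key := h1 k N _ _ hf hg
  have e : psi (xx (k := k)) * ff a (xx ∘ σ) * h / (dd (xx (k := k)) * (∏ i, uu (xx i)) ^ N)
      = (psi (xx (k := k)) * ∏ j, (xx (σ j) : E k) ^ a j) *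
        (h * (∏ p ∈ pairs k, mm (uu (xx (σ p.1))) (1 - xx (σ p.2) : E k))⁻¹) /
        (∏ i, uu (xx i)) ^ N := by
    rw [hdd]
    have ef : ff a ((xx : Fin k → E k) ∘ σ)
        = (∏ j, (xx (σ j) : E k) ^ a j) * cc ((xx : Fin k → E k) ∘ σ) := rfl
    rw [ef]
    generalize cc ((xx : Fin k → E k) ∘ σ) = c at hc
    generalize (∏ p ∈ pairs k, mm (uu (xx (σ p.1))) (1 - xx (σ p.2) : E k)) = m
    generalize (∏ j, (xx (σ j) : E k) ^ a j) = y
    generalize (∏ i, uu (xx (k := k) i)) ^ N = U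
    rw [div_eq_mul_inv, div_eq_mul_inv, mul_inv, mul_inv]
    calc psi (xx (k := k)) * (y * c) * h * (c⁻¹ * m⁻¹ * U⁻¹)
        = psi (xx (k := k)) * y * (h * m⁻¹) * U⁻¹ * (c * c⁻¹) := by ring
      _ = _ := by rw [mul_inv_cancel₀ hc, mul_one]
  rw [e]
  exact key

end Pool.Agent.H665.GM174
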